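import Mathlib
import Pool.Agent.Helper9.NS
import Pool.Agent.Helper40.CX.Good2

namespace CX

/-!
# KX: algebraically independent pairs
-/

set_option linter.unusedSectionVars false

namespace Pool.Agent.Helper70.KX

open Polynomial

universe u

variable {k E : Type u} [Field k] [Field E] [Algebra k E] {l x : E}

lemma ind_fst (h : AlgebraicIndependent k ![l, x]) : Transcendental k l := h.transcendental 0

lemma ind_snd (h : AlgebraicIndependent k ![l, x]) : Transcendental (IntermediateField.adjoin k {l}) x := by
  have h1 := h.transcendental_adjoin (s := {0}) (i := 1) (by simp)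
  have h2 : (![l, x] '' {0}) = {l} := by simp
  rw [h2] at h1
  have h3 : (![l, x] 1) = x := rfl
  rw [h3] at h1
  intro h4
  exact h1 (IntermediateField.isAlgebraic_adjoin_iff.mp h4)

lemma ind_of (h : Transcendental k l) (h' : Transcendental (IntermediateField.adjoin k {l}) x) :
    AlgebraicIndependent k ![l, x] := by
  have h1 : Transcendental (Algebra.adjoin k {l}) x := fun h4 =>
    h' (IntermediateField.isAlgebraic_adjoin_iff.mpr h4)
  rw [AlgebraicIndependent.iff_transcendental_adjoin_image (1 : Fin 2)]
  have h2 : (![l, x] '' {1}ᶜ) = {l} := by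
    ext z
    simp only [Set.mem_image, Set.mem_compl_iff, Set.mem_singleton_iff]
    constructor
    · rintro ⟨i, hi, rfl⟩
      fin_cases i
      · rfl
      · exact absurd rfl hi
    · rintro rfl
      exact ⟨0, by decide, rfl⟩
  refine ⟨?_, ?_⟩
  · letI : Unique {j : Fin 2 // j ≠ 1} :=
      { default := ⟨0, by decide⟩
        uniq := fun j => by
          rcases j with ⟨j, hj⟩
          fin_cases j
          · rfl
          · exact absurd rfl hj }
    rw [algebraicIndependent_unique_type_iff]
    exact h
  · rw [h2]
    exact h1

lemma adjoin_gen_top (l : E) : IntermediateField.adjoin k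
    {(⟨l, IntermediateField.mem_adjoin_simple_self k l⟩ : IntermediateField.adjoin k {l})} = ⊤ := by
  apply IntermediateField.lift_injective
  rw [IntermediateField.lift_adjoin, IntermediateField.lift_top, Set.image_singleton]

lemma trans_gen (h : Transcendental k l) :
    Transcendental k (⟨l, IntermediateField.mem_adjoin_simple_self k l⟩ : IntermediateField.adjoin k {l}) := by
  intro h1
  exact h (h1.algebraMap (A := E))

/-- Two generators of a field of transcendence degree two. -/
lemma ind_of_gen {s t : E} (h : AlgebraicIndependent k ![s, t]) (ha : Algebra.IsAlgebraic (IntermediateField.adjoin k {l, x}) E) :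
    AlgebraicIndependent k ![l, x] := by
  have h0 : Algebra.IsAlgebraic (Algebra.adjoin k (Set.range ![l, x])) E := by
    have hr : Set.range ![l, x] = {l, x} := by
      ext z
      simp only [Set.mem_range, Fin.exists_fin_two, Matrix.cons_val_zero, Matrix.cons_val_one,
        Set.mem_insert_iff, Set.mem_singleton_iff]
      constructor
      · rintro (h | h)
        · exact Or.inl h.symm
        · exact Or.inr h.symm
      · rintro (h | h)
        · exact Or.inl h.symm
        · exact Or.inr h.symm
    rw [hr]
    exact ⟨fun z => IntermediateField.isAlgebraic_adjoin_iff.mp (ha.isAlgebraic z)⟩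
  have h1 := h.lift_cardinalMk_le_trdeg
  have h2 : Cardinal.lift.{u} (Cardinal.mk (Fin 2)) ≤ Cardinal.lift.{0} (Algebra.trdeg k E) := h1
  exact (Algebra.IsAlgebraic.isTranscendenceBasis_of_lift_le_trdeg_of_finite k ![l, x] h2).1

end Pool.Agent.Helper70.KX

end CX
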