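import Mathlib
import Pool.Agent.Helper9.NS
import Pool.Agent.Helper40.CX.H17FF.Genus
import Pool.Agent.Helper40.CX.H83VF.Res
import Pool.Agent.Helper40.CX.Good2

namespace CX

/-!
# KX: the places of the projective line, its genus
-/

set_option linter.unusedSectionVars false

namespace Pool.Agent.Helper70.KX

open VC CX.VF Function Polynomial

universe u

variable {k K : Type u} [Field k] [IsAlgClosed k] [Good k] [Field K] [Algebra k K] {l : K}

lemma finrank_line (htop : IntermediateField.adjoin k {l} = ⊤) :
    Module.finrank (IntermediateField.adjoin k {l}) K = 1 := by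
  rw [htop]
  exact IntermediateField.finrank_top

lemma line_ff (hl : Transcendental k l) (htop : IntermediateField.adjoin k {l} = ⊤) : IsFunctionField k K := by
  refine ⟨l, hl, ?_⟩
  apply Module.finite_of_finrank_pos
  rw [finrank_line htop]
  exact one_pos

/-- The place at infinity. -/
lemma exists_inf (hl : Transcendental k l) (htop : IntermediateField.adjoin k {l} = ⊤) :
    ∃ P₀ : Place k K, ord P₀.ring l = -1 ∧ ∀ P : Place k K, P ≠ P₀ → l ∈ P.ring := by
  classical
  have hK : IsFunctionField k K := line_ff hl htop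
  have hl0 : l ≠ 0 := by
    rintro rfl
    exact hl isAlgebraic_zero
  have hinv : Transcendental k l⁻¹ := FF.transcendental_inv' hl
  obtain ⟨P₀, hP₀⟩ := FF.exists_place hinv
  have htop' : IntermediateField.adjoin k {l⁻¹} = ⊤ := by
    rw [eq_top_iff, ← htop, IntermediateField.adjoin_simple_le_iff]
    have h := inv_mem (IntermediateField.mem_adjoin_simple_self k l⁻¹)
    rwa [inv_inv] at h
  have hle : ∀ S : Finset (Place k K), (∀ P ∈ S, l⁻¹ ∈ P.ring.nonunits) →
      ∑ P ∈ S, ord P.ring l⁻¹ ≤ 1 := by
    intro S hS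
    have h := FF.sum_ord_le hK hinv S hS
    rw [finrank_line htop'] at h
    exact_mod_cast h
  have h1 : 0 < ord P₀.ring l⁻¹ := (FF.ord_pos_iff hK P₀ (inv_ne_zero hl0)).mpr hP₀
  have h2 := hle {P₀} (by simpa using hP₀)
  rw [Finset.sum_singleton] at h2
  refine ⟨P₀, ?_, fun P hP => ?_⟩
  · rw [FF.ord_inv hK P₀ hl0] at h1 h2
    omega
  · by_contra hcon
    have h3 : l⁻¹ ∈ P.ring.nonunits := by
      rw [← FF.ord_pos_iff hK P (inv_ne_zero hl0), FF.ord_inv hK P hl0]
      have h4 := (FF.ord_nonneg_iff hK P hl0).not.mpr hcon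
      omega
    have h4 := hle {P, P₀} (by
      intro Q hQ
      rcases Finset.mem_insert.mp hQ with rfl | hQ
      · exact h3
      · rw [Finset.mem_singleton.mp hQ]
        exact hP₀)
    rw [Finset.sum_pair hP] at h4
    have h5 : 0 < ord P.ring l⁻¹ := (FF.ord_pos_iff hK P (inv_ne_zero hl0)).mpr h3
    omega

lemma aeval_ne (hl : Transcendental k l) {p : k[X]} (hp : p ≠ 0) : aeval l p ≠ 0 := fun h =>
  hl ⟨p, hp, h⟩

/-- The order of a polynomial at infinity. -/
lemma ord_inf (hl : Transcendental k l) (htop : IntermediateField.adjoin k {l} = ⊤) {P₀ : Place k K}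
    (h : ord P₀.ring l = -1) : ∀ {p : k[X]}, p ≠ 0 → ord P₀.ring (aeval l p) = -(p.natDegree : ℤ) := by
  have hK : IsFunctionField k K := line_ff hl htop
  have hl0 : l ≠ 0 := by
    rintro rfl
    exact hl isAlgebraic_zero
  have key : ∀ n : ℕ, ∀ p : k[X], p ≠ 0 → p.natDegree = n → ord P₀.ring (aeval l p) = -(n : ℤ) := by
    intro n
    induction n using Nat.strong_induction_on with
    | _ n ih =>
      intro p hp hn
      have hlc : p.leadingCoeff ≠ 0 := leadingCoeff_ne_zero.mpr hp
      have hm : ord P₀.ring (aeval l (monomial p.natDegree p.leadingCoeff)) = -(n : ℤ) := by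
        rw [aeval_monomial, FF.ord_mul hK P₀ ((_root_.map_ne_zero _).mpr hlc) (pow_ne_zero _ hl0),
          FF.ord_algebraMap hK P₀ hlc, FF.ord_pow hK P₀ hl0, h, hn]
        ring
      have hm0 : aeval l (monomial p.natDegree p.leadingCoeff) ≠ 0 := by
        rw [aeval_monomial]
        exact mul_ne_zero ((_root_.map_ne_zero _).mpr hlc) (pow_ne_zero _ hl0)
      have he : aeval l p = aeval l (monomial p.natDegree p.leadingCoeff) + aeval l p.eraseLead := by
        rw [← map_add, add_comm, eraseLead_add_monomial_natDegree_leadingCoeff]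
      by_cases h0 : p.eraseLead = 0
      · rw [he, h0, map_zero, add_zero, hm]
      · have hlt : p.eraseLead.natDegree < n := by
          rcases p.eraseLead_natDegree_lt_or_eraseLead_eq_zero with h1 | h1
          · omega
          · exact absurd h1 h0
        have h2 := ih _ hlt _ h0 rfl
        rw [he, ← hm]
        refine (FF.ord_add_eq_left hK P₀ hm0 (aeval_ne hl h0) ?_).2
        rw [hm, h2]
        omega
  intro p hp
  exact key _ p hp rfl

/-- The order of a polynomial at a finite place. -/
lemma ord_fin (hl : Transcendental k l) (htop : IntermediateField.adjoin k {l} = ⊤) {P : Place k K}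
    (h : l ∈ P.ring) : ∃ c : k, ∀ {p : k[X]}, p ≠ 0 → ord P.ring (aeval l p) = (p.rootMultiplicity c : ℤ) := by
  classical
  have hK : IsFunctionField k K := line_ff hl htop
  obtain ⟨c, hc⟩ := FF.exists_residue hK P h
  have hcl : Transcendental k (l - algebraMap k K c) := by
    intro h1
    apply hl
    have h2 := h1.add (isAlgebraic_algebraMap (A := K) c)
    rwa [sub_add_cancel] at h2
  have hc0 : l - algebraMap k K c ≠ 0 := by
    intro h0
    rw [h0] at hcl
    exact hcl isAlgebraic_zero
  have htop' : IntermediateField.adjoin k {l - algebraMap k K c} = ⊤ := by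
    rw [eq_top_iff, ← htop, IntermediateField.adjoin_simple_le_iff]
    have h1 := add_mem (IntermediateField.mem_adjoin_simple_self k (l - algebraMap k K c))
      ((IntermediateField.adjoin k {l - algebraMap k K c}).algebraMap_mem c)
    rwa [sub_add_cancel] at h1
  have h1 : ord P.ring (l - algebraMap k K c) = 1 := by
    have h2 := FF.sum_ord_le hK hcl {P} (by simpa using hc)
    rw [finrank_line htop', Finset.sum_singleton] at h2
    have h3 := (FF.ord_pos_iff hK P hc0).mpr hc
    have h4 : ord P.ring (l - algebraMap k K c) ≤ 1 := by exact_mod_cast h2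
    omega
  refine ⟨c, fun {p} hp => ?_⟩
  obtain ⟨q, hq, hq1⟩ := exists_eq_pow_rootMultiplicity_mul_and_not_dvd p hp c
  have hq0 : q ≠ 0 := by
    rintro rfl
    exact hp (by rw [hq, mul_zero])
  have hqc : q.eval c ≠ 0 := fun h0 => hq1 (dvd_iff_isRoot.mpr h0)
  have hres : IsRes P (aeval l q) (q.eval c) := by
    have : ∀ g : k[X], IsRes P (aeval l g) (g.eval c) := by
      intro g
      induction g using Polynomial.induction_on with
      | C a => rw [aeval_C, eval_C]; exact isRes_const a
      | add f g hf hg => rw [map_add, eval_add]; exact hf.add hg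
      | monomial n a ih =>
        rw [pow_succ, ← mul_assoc, map_mul, aeval_X, eval_mul, eval_X]
        exact ih.mul hc
    exact this q
  have h2 : ord P.ring (aeval l q) = 0 := by
    have h3 := hres.inv_mem hqc
    have h4 := (FF.ord_nonneg_iff hK P h3.1).mpr hres.mem
    have h5 := (FF.ord_nonneg_iff hK P (inv_ne_zero h3.1)).mpr h3.2
    rw [FF.ord_inv hK P h3.1] at h5
    omega
  have h3 : aeval l p = (l - algebraMap k K c) ^ p.rootMultiplicity c * aeval l q := by
    conv_lhs => rw [hq]
    rw [map_mul, map_pow, map_sub, aeval_X, aeval_C]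
  rw [h3, FF.ord_mul hK P (pow_ne_zero _ hc0) (aeval_ne hl hq0), FF.ord_pow hK P hc0, h1, h2]
  ring

/-- The genus of the projective line. -/
lemma line_genus (hl : Transcendental k l) (htop : IntermediateField.adjoin k {l} = ⊤) : IsGenus k K 0 := by
  classical
  have hK : IsFunctionField k K := line_ff hl htop
  obtain ⟨P₀, hP₀, hP⟩ := exists_inf hl htop
  obtain ⟨g, hg⟩ := FF.exists_genus hK
  obtain ⟨c, hc⟩ := FF.ell_eq_of_large hK hg
  obtain ⟨n, hn⟩ : ∃ n : ℕ, c ≤ n := ⟨c.toNat, Int.self_le_toNat c⟩
  have hdeg : FF.deg (Finsupp.single P₀ (n : ℤ)) = n := FF.deg_single _ _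
  have h1 := hc (Finsupp.single P₀ (n : ℤ)) (by rw [hdeg]; exact hn)
  rw [hdeg] at h1
  have hfin : FiniteDimensional k (riemannRochSpace k K (Finsupp.single P₀ (n : ℤ))) :=
    FF.finite_rr hK _
  have hl0 : l ≠ 0 := by
    rintro rfl
    exact hl isAlgebraic_zero
  have h2 : n + 1 ≤ FF.ell (Finsupp.single P₀ (n : ℤ)) := by
    have hli : LinearIndependent k (fun i : Fin (n + 1) => l ^ (i : ℕ)) := by
      have h2 := (transcendental_iff_injective.mp hl)
      have h3 : LinearIndependent k (fun i : ℕ => l ^ i) := by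
        have h4 := (Polynomial.basisMonomials k).linearIndependent.map' (aeval l : k[X] →ₐ[k] K).toLinearMap
          (LinearMap.ker_eq_bot.mpr h2)
        have h5 : (fun i : ℕ => l ^ i) = ((aeval l : k[X] →ₐ[k] K).toLinearMap ∘ (Polynomial.basisMonomials k)) := by
          funext i
          simp
        rw [h5]
        exact h4
      exact h3.comp (fun i : Fin (n + 1) => (i : ℕ)) Fin.val_injective
    have hmem : ∀ i : Fin (n + 1), l ^ (i : ℕ) ∈ riemannRochSpace k K (Finsupp.single P₀ (n : ℤ)) := by
      intro i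
      rw [FF.mem_rr hK _ (pow_ne_zero _ hl0)]
      intro P
      rw [FF.ord_pow hK P hl0]
      by_cases hPP : P = P₀
      · rw [hPP, hP₀, Finsupp.single_eq_same]
        have := i.2
        omega
      · rw [Finsupp.single_apply, if_neg (Ne.symm hPP), add_zero]
        have h3 := (FF.ord_nonneg_iff hK P hl0).mpr (hP P hPP)
        positivity
    have h3 : LinearIndependent k (fun i : Fin (n + 1) =>
        (⟨l ^ (i : ℕ), hmem i⟩ : riemannRochSpace k K (Finsupp.single P₀ (n : ℤ)))) := by
      refine LinearIndependent.of_comp (riemannRochSpace k K (Finsupp.single P₀ (n : ℤ))).subtype ?_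
      exact hli
    have h4 := h3.fintype_card_le_finrank
    rw [Fintype.card_fin] at h4
    exact h4
  have h3 : g = 0 := by
    have h4 : ((n + 1 : ℕ) : ℤ) ≤ (FF.ell (Finsupp.single P₀ (n : ℤ)) : ℤ) := by exact_mod_cast h2
    rw [h1] at h4
    push_cast at h4
    omega
  rw [← h3]
  exact hg

end Pool.Agent.Helper70.KX

end CX
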